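import Pool.Agent.Helper382_NodO.Ded

/-!
MP_6a3dac_ag: regular proper flat models of a positive proportion of all hypersurfaces over any
number field.

Let `E` be a number field, `d ≥ 3`, and order the forms of degree `d` in `n + 3` variables with
coefficients in the ring of integers of `E` by the largest absolute value of the coordinates of the
coefficients with respect to a basis of the ring of integers over `ℤ` (any basis). A positive
proportion of all these forms defines a smooth hypersurface over `E` which has a regular proper flat
model over the ring of integers of `E`, and, more generally, over every Dedekind domain `R` of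
characteristic zero which is an algebra over the ring of integers of `E`, with the field of fractions
`K`, the hypersurface over `K` is smooth and has a regular proper flat model over `R`. Examples are
the rings of integers of all number fields containing `E`, their localizations and completions, and
coordinate rings of smooth affine curves over such fields.

The proof: at every prime `𝔭` of `E` all the singular points of the reduction modulo `𝔭` of such a form
have an invertible matrix of second derivatives. At the large primes this is a condition of codimension
two and can be sieved: the condition on the other coefficients is the vanishing of a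
polynomial at `𝔭`, whose norm is an integral polynomial in all the coordinates, and then one of the
coordinates of the remaining coefficient lies in a bounded number of residue classes modulo `p`. At the
small primes one takes residue classes of smooth forms. Such singular points of a fibre over a
Dedekind domain can be resolved, whether the total space is regular there or not; they remain of the
same kind over all Dedekind domains over the ring of integers.
-/

set_option autoImplicit false

open AlgebraicGeometry CategoryTheory CategoryTheory.Limits MvPolynomial

open scoped NumberField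

namespace Pool.Agent.Results.MP_6a3dac_ag.HypersurfacesOverNumberFields

/-- The partial derivatives of `G` have no common zero (over an algebraic closure) but the origin:
every variable has a power in the ideal they generate. -/
def IsSmooth {K : Type} [Field K] {m : ℕ} (G : MvPolynomial (Fin m) K) : Prop :=
  ∀ i, X i ∈ (Ideal.span (Set.range fun j => pderiv j G)).radical

/-- The dimension of the local ring `A` equals the dimension of its cotangent space. -/
def HasRegularDimension (A : Type) [CommRing A] [IsLocalRing A] : Prop :=
  ringKrullDim A = (((Module.finrank (IsLocalRing.ResidueField A)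
    (IsLocalRing.CotangentSpace A) : ℕ) : ℕ∞) : WithBot ℕ∞)

/-- The morphism `g` from `Y` is a regular proper flat model over the ring `R` of the scheme `V` over
its field of fractions `K`, with the structure morphism `f`. -/
def IsRegularProperFlatModelOver {R K : Type} [CommRing R] [Field K] [Algebra R K]
    {V Y : Scheme.{0}} (f : V ⟶ Spec (CommRingCat.of K)) (g : Y ⟶ Spec (CommRingCat.of R)) :
    Prop :=
  IsProper g ∧ Flat g ∧ (∀ y : Y, HasRegularDimension (Y.presheaf.stalk y)) ∧
    ∃ e : pullback g (Spec.map (CommRingCat.ofHom (algebraMap R K))) ≅ V,
      e.hom ≫ f = pullback.snd g (Spec.map (CommRingCat.ofHom (algebraMap R K)))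

/-- The structure morphism of `Proj ℬ` over `K`. -/
noncomputable def structureMorphism {K B : Type} [Field K] [CommRing B] [Algebra K B]
    (ℬ : ℕ → Submodule K B) [GradedAlgebra ℬ] : Proj ℬ ⟶ Spec (CommRingCat.of K) :=
  Proj.toSpecZero ℬ ≫ Spec.map (CommRingCat.ofHom (algebraMap K (ℬ 0)))

/-- Every scheme `V` over `K` isomorphic over `K` to the hypersurface `Proj (K[X] / (G))` has a
regular proper flat model over the ring `R`. -/
def HypersurfaceHasModelOver (R : Type) {K : Type} [CommRing R] [Field K] [Algebra R K] {m : ℕ}
    (G : MvPolynomial (Fin m) K) : Prop :=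
  ∀ (B : Type) [CommRing B] [Algebra K B]
    (π : MvPolynomial (Fin m) K →ₐ[K] B), Function.Surjective π →
    RingHom.ker π = Ideal.span {G} →
  ∀ (ℬ : ℕ → Submodule K B) [GradedAlgebra ℬ],
    (∀ d, ℬ d = (homogeneousSubmodule (Fin m) K d).map π.toLinearMap) →
  ∀ (V : Scheme.{0}) (f : V ⟶ Spec (CommRingCat.of K)) (i : V ≅ Proj ℬ),
    i.hom ≫ structureMorphism ℬ = f →
  ∃ (Y : Scheme.{0}) (g : Y ⟶ Spec (CommRingCat.of R)), IsRegularProperFlatModelOver f g

/-- The forms of degree `d` in `m` variables over the ring of integers of `E` whose coefficients
have coordinates of absolute value at most `H` with respect to the basis `ω`. -/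
def forms {E : Type} [Field E] {r : ℕ} (ω : Module.Basis (Fin r) ℤ (𝓞 E)) (m d H : ℕ) :
    Set (MvPolynomial (Fin m) (𝓞 E)) :=
  {F | F.IsHomogeneous d ∧ ∀ e i, |ω.repr (F.coeff e) i| ≤ (H : ℤ)}

/-- The form over `K` given by the form `F` over the ring of integers of `E`, where `K` is the field
of fractions of the algebra `R` over the ring of integers. -/
noncomputable def formOver {E : Type} [Field E] (R K : Type) [CommRing R] [Field K] [Algebra R K]
    [Algebra (𝓞 E) R] {m : ℕ} (F : MvPolynomial (Fin m) (𝓞 E)) : MvPolynomial (Fin m) K :=
  map ((algebraMap R K).comp (algebraMap (𝓞 E) R)) F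

theorem result (E : Type) [Field E] [NumberField E] {r : ℕ} (ω : Module.Basis (Fin r) ℤ (𝓞 E))
    (n d : ℕ) (hd : 3 ≤ d) :
    ∃ c : ℝ, 0 < c ∧ ∃ H₀ : ℕ, ∀ H : ℕ, H₀ ≤ H →
      (forms ω (n + 3) d H).Finite ∧ c * (forms ω (n + 3) d H).ncard ≤
        {F | F ∈ forms ω (n + 3) d H ∧
          ∀ (R K : Type) [CommRing R] [IsDedekindDomain R] [Field K] [CharZero K] [Algebra R K]
            [IsFractionRing R K] [Algebra (𝓞 E) R],
            IsSmooth (formOver R K F) ∧ HypersurfaceHasModelOver R (formOver R K F)}.ncard := by
  obtain ⟨c, hc, H₀, h⟩ := Pool.Agent.Helper382_NodO.density_formsO ω (n + 1) d hd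
  refine ⟨c, hc, H₀, fun H hH => ⟨Pool.Agent.Helper382_NodO.finite_formsO ω (n + 1) d H,
    (h H hH).trans ?_⟩⟩
  refine Nat.cast_le.2 (Set.ncard_le_ncard ?_
    ((Pool.Agent.Helper382_NodO.finite_formsO ω (n + 1) d H).subset fun _ hF => hF.1))
  rintro F ⟨hF, hnod, hsm⟩
  refine ⟨hF, fun R K _ _ _ _ _ _ _ => ?_⟩
  have hsmK := hsm K ((algebraMap R K).comp (algebraMap (𝓞 E) R))
    (Pool.Agent.Helper382_NodO.injective_of_charZero _)
  have hsmE := hsm E (algebraMap (𝓞 E) E)
    (Pool.Agent.Helper382_NodO.injective_of_charZero _)
  refine ⟨hsmK, ?_⟩
  intro B _ _ π hπ hker ℬ _ hℬ V f i hi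
  exact Pool.Agent.Helper382_Nodal.model_gen (O := R) (n := n + 1) (by omega)
    (map ((algebraMap R K).comp (algebraMap (𝓞 E) R)) F) d (by omega) (hF.1.map _) hsmK
    (Pool.Agent.Helper382_NodO.locNod_ded (algebraMap (𝓞 E) R) F hF.1 hsmE hnod) π hπ hker ℬ hℬ
    f i hi

end Pool.Agent.Results.MP_6a3dac_ag.HypersurfacesOverNumberFields
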